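import Pool.Agent.U753.MX.Stm

/-!
# Project MX, package BD: expectations in states
-/

set_option autoImplicit false

open scoped BigOperators Matrix ComplexOrder
open scoped Matrix.Norms.L2Operator

noncomputable section

namespace Pool.Agent.U397.MX

theorem dot_le {n : Type} [Fintype n] [DecidableEq n] (X : Matrix n n ℂ) (w : n → ℂ) :
    |(star w ⬝ᵥ (X *ᵥ w)).re| ≤ ‖X‖ * (star w ⬝ᵥ w).re := by
  let x : EuclideanSpace ℂ n := (EuclideanSpace.equiv n ℂ).symm w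
  let y : EuclideanSpace ℂ n := (EuclideanSpace.equiv n ℂ).symm (X *ᵥ w)
  have h1 : star w ⬝ᵥ (X *ᵥ w) = inner ℂ x y := by
    rw [EuclideanSpace.inner_eq_star_dotProduct, dotProduct_comm]
    rfl
  have h2 : (star w ⬝ᵥ w).re = ‖x‖ * ‖x‖ := by
    have h3 : star w ⬝ᵥ w = inner ℂ x x := by
      rw [EuclideanSpace.inner_eq_star_dotProduct, dotProduct_comm]
      rfl
    rw [h3, inner_self_eq_norm_sq_to_K]
    norm_cast
    rw [sq]
    exact Complex.ofReal_re _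
  have h4 : ‖y‖ ≤ ‖X‖ * ‖x‖ := Matrix.l2_opNorm_mulVec X x
  rw [h1, h2]
  calc |(inner ℂ x y : ℂ).re| ≤ ‖(inner ℂ x y : ℂ)‖ := Complex.abs_re_le_norm _
    _ ≤ ‖x‖ * ‖y‖ := norm_inner_le_norm x y
    _ ≤ ‖x‖ * (‖X‖ * ‖x‖) := mul_le_mul_of_nonneg_left h4 (norm_nonneg x)
    _ = ‖X‖ * (‖x‖ * ‖x‖) := by ring

theorem trace_dyad {n : Type} [Fintype n] [DecidableEq n] (X : Matrix n n ℂ) (v : n → ℂ) :
    (Matrix.vecMulVec v (star v) * X).trace = star v ⬝ᵥ (X *ᵥ v) := by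
  rw [Matrix.vecMulVec_mul, Matrix.trace_vecMulVec, dotProduct_comm, Matrix.dotProduct_mulVec]

theorem t_bd : Pool.Agent.U753.MX.StmBD := by
  intro n _ _ ρ X hρ htr _
  obtain ⟨m, v, hv⟩ := Matrix.posSemidef_iff_eq_sum_vecMulVec.mp hρ
  have h1 : (ρ * X).trace.re = ∑ i, (star (v i) ⬝ᵥ (X *ᵥ v i)).re := by
    rw [hv, Finset.sum_mul, Matrix.trace_sum, Complex.re_sum]
    exact Finset.sum_congr rfl fun i _ => by rw [trace_dyad]
  have h2 : ∑ i, (star (v i) ⬝ᵥ v i).re = 1 := by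
    have h3 : ρ.trace.re = ∑ i, (star (v i) ⬝ᵥ v i).re := by
      rw [hv, Matrix.trace_sum, Complex.re_sum]
      exact Finset.sum_congr rfl fun i _ => by
        rw [Matrix.trace_vecMulVec, dotProduct_comm]
    rw [← h3, htr, Complex.one_re]
  rw [h1]
  calc |∑ i, (star (v i) ⬝ᵥ (X *ᵥ v i)).re| ≤ ∑ i, |(star (v i) ⬝ᵥ (X *ᵥ v i)).re| :=
        Finset.abs_sum_le_sum_abs _ _
    _ ≤ ∑ i, ‖X‖ * (star (v i) ⬝ᵥ v i).re := Finset.sum_le_sum fun i _ => dot_le X (v i)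
    _ = ‖X‖ := by rw [← Finset.mul_sum, h2, mul_one]

end Pool.Agent.U397.MX
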